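import Mathlib

set_option autoImplicit false

open Finset

namespace Pool.Agent.KS6_44.PC

/-- The combinatorial heart: `C` are the edges of a plane path between the two columns whose sum of
indices lies in the window, `A` and `B` its edges between the middle column and the left and the
right column. -/
lemma core (H m0 : ℕ) (C A B : Finset (ℕ × ℕ))
    (hC : ∀ p ∈ C, m0 ≤ p.1 + p.2 ∧ p.1 + p.2 ≤ m0 + H)
    (hA : ∀ p ∈ A, p.1 < H) (hB : ∀ p ∈ B, p.1 < H)
    (dL : ∀ i, (C.filter fun p => p.1 = i).card + (A.filter fun p => p.2 = i).card ≤ 2)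
    (dR : ∀ j, (C.filter fun p => p.2 = j).card + (B.filter fun p => p.2 = j).card ≤ 2)
    (dS : ∀ k, (A.filter fun p => p.1 = k).card + (B.filter fun p => p.1 = k).card ≤ 2)
    (n1 : ∀ p ∈ C, ∀ q ∈ C, p.1 < q.1 → p.2 ≤ q.2)
    (nA1 : ∀ p ∈ C, ∀ q ∈ A, p.1 + p.2 ≤ m0 + q.1 → p.1 ≤ q.2)
    (nA2 : ∀ p ∈ C, ∀ q ∈ A, m0 + q.1 < p.1 + p.2 → q.2 ≤ p.1)
    (nB1 : ∀ p ∈ C, ∀ q ∈ B, p.1 + p.2 ≤ m0 + q.1 → p.2 ≤ q.2)
    (nB2 : ∀ p ∈ C, ∀ q ∈ B, m0 + q.1 < p.1 + p.2 → q.2 ≤ p.2) :
    2 * C.card + A.card + B.card ≤ 2 * H + 4 := by
  classical
  rcases C.eq_empty_or_nonempty with rfl | hne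
  · have a1 : A.card = ∑ k ∈ range H, (A.filter fun p => p.1 = k).card :=
      card_eq_sum_card_fiberwise fun p hp => by simpa using hA p hp
    have b1 : B.card = ∑ k ∈ range H, (B.filter fun p => p.1 = k).card :=
      card_eq_sum_card_fiberwise fun p hp => by simpa using hB p hp
    have : ∑ k ∈ range H, ((A.filter fun p => p.1 = k).card + (B.filter fun p => p.1 = k).card)
        ≤ ∑ k ∈ range H, 2 := sum_le_sum fun k _ => dS k
    rw [sum_add_distrib] at this
    simp only [sum_const, card_range, smul_eq_mul] at this
    simp only [card_empty]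
    omega
  · obtain ⟨p, hp, hpm⟩ := exists_min_image C (fun p => p.1 + p.2) hne
    obtain ⟨q, hq, hqm⟩ := exists_max_image C (fun p => p.1 + p.2) hne
    have lo : ∀ c ∈ C, p.1 ≤ c.1 ∧ p.2 ≤ c.2 := by
      intro c hc
      have h1 := hpm c hc
      constructor
      · by_contra h
        have := n1 c hc p hp (by omega)
        omega
      · by_contra h
        rcases Nat.lt_or_ge p.1 c.1 with h2 | h2
        · have := n1 p hp c hc h2
          omega
        · omega
    have up : ∀ c ∈ C, c.1 ≤ q.1 ∧ c.2 ≤ q.2 := by
      intro c hc
      have h1 := hqm c hc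
      constructor
      · by_contra h
        have := n1 q hq c hc (by omega)
        omega
      · by_contra h
        rcases Nat.lt_or_ge c.1 q.1 with h2 | h2
        · have := n1 c hc q hq h2
          omega
        · omega
    set I : ℕ → Prop := fun k => p.1 + p.2 ≤ m0 + k ∧ m0 + k < q.1 + q.2 with hI
    have hpq := lo q hq
    have hpC := hC p hp
    have hqC := hC q hq
    -- left ends
    have eL : C.card + (A.filter fun a => I a.1).card ≤ 2 * (q.1 - p.1 + 1) := by
      have c1 : C.card = ∑ i ∈ Icc p.1 q.1, (C.filter fun c => c.1 = i).card :=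
        card_eq_sum_card_fiberwise fun c hc => by
          have h1 := lo c hc
          have h2 := up c hc
          simp only [coe_Icc, Set.mem_Icc]
          exact ⟨h1.1, h2.1⟩
      have a1 : (A.filter fun a => I a.1).card =
          ∑ i ∈ Icc p.1 q.1, ((A.filter fun a => I a.1).filter fun a => a.2 = i).card :=
        card_eq_sum_card_fiberwise fun a ha => by
          have ha' := mem_filter.1 (mem_coe.1 ha)
          simp only [coe_Icc, Set.mem_Icc]
          exact ⟨nA1 p hp a ha'.1 ha'.2.1, nA2 q hq a ha'.1 ha'.2.2⟩
      rw [c1, a1, ← sum_add_distrib]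
      calc _ ≤ ∑ i ∈ Icc p.1 q.1, 2 := by
            refine sum_le_sum fun i _ => le_trans ?_ (dL i)
            have : ((A.filter fun a => I a.1).filter fun a => a.2 = i).card ≤
                (A.filter fun a => a.2 = i).card :=
              card_le_card (filter_subset_filter _ (filter_subset _ _))
            omega
        _ = 2 * (q.1 - p.1 + 1) := by
            simp only [sum_const, Nat.card_Icc, smul_eq_mul]
            omega
    have eR : C.card + (B.filter fun a => I a.1).card ≤ 2 * (q.2 - p.2 + 1) := by
      have c1 : C.card = ∑ i ∈ Icc p.2 q.2, (C.filter fun c => c.2 = i).card :=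
        card_eq_sum_card_fiberwise fun c hc => by
          have h1 := lo c hc
          have h2 := up c hc
          simp only [coe_Icc, Set.mem_Icc]
          exact ⟨h1.2, h2.2⟩
      have a1 : (B.filter fun a => I a.1).card =
          ∑ i ∈ Icc p.2 q.2, ((B.filter fun a => I a.1).filter fun a => a.2 = i).card :=
        card_eq_sum_card_fiberwise fun a ha => by
          have ha' := mem_filter.1 (mem_coe.1 ha)
          simp only [coe_Icc, Set.mem_Icc]
          exact ⟨nB1 p hp a ha'.1 ha'.2.1, nB2 q hq a ha'.1 ha'.2.2⟩
      rw [c1, a1, ← sum_add_distrib]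
      calc _ ≤ ∑ i ∈ Icc p.2 q.2, 2 := by
            refine sum_le_sum fun i _ => le_trans ?_ (dR i)
            have : ((B.filter fun a => I a.1).filter fun a => a.2 = i).card ≤
                (B.filter fun a => a.2 = i).card :=
              card_le_card (filter_subset_filter _ (filter_subset _ _))
            omega
        _ = 2 * (q.2 - p.2 + 1) := by
            simp only [sum_const, Nat.card_Icc, smul_eq_mul]
            omega
    -- the other edges at the middle column
    have hK : ((range H).filter fun k => ¬ I k).card + (q.1 + q.2 - (p.1 + p.2)) = H := by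
      have h1 := card_filter_add_card_filter_not (s := range H) (fun k => I k)
      have h2 : (range H).filter (fun k => I k) =
          Ico (p.1 + p.2 - m0) (q.1 + q.2 - m0) := by
        ext k
        simp only [mem_filter, mem_range, mem_Ico, hI]
        omega
      rw [h2, Nat.card_Ico, card_range] at h1
      omega
    have eS : (A.filter fun a => ¬ I a.1).card + (B.filter fun a => ¬ I a.1).card ≤
        2 * ((range H).filter fun k => ¬ I k).card := by
      have a1 : (A.filter fun a => ¬ I a.1).card = ∑ k ∈ (range H).filter (fun k => ¬ I k),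
          ((A.filter fun a => ¬ I a.1).filter fun a => a.1 = k).card :=
        card_eq_sum_card_fiberwise fun a ha => by
          have ha' := mem_filter.1 (mem_coe.1 ha)
          have := hA a ha'.1
          simp only [coe_filter, mem_range, Set.mem_ofPred_eq]
          exact ⟨this, ha'.2⟩
      have b1 : (B.filter fun a => ¬ I a.1).card = ∑ k ∈ (range H).filter (fun k => ¬ I k),
          ((B.filter fun a => ¬ I a.1).filter fun a => a.1 = k).card :=
        card_eq_sum_card_fiberwise fun a ha => by
          have ha' := mem_filter.1 (mem_coe.1 ha)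
          have := hB a ha'.1
          simp only [coe_filter, mem_range, Set.mem_ofPred_eq]
          exact ⟨this, ha'.2⟩
      rw [a1, b1, ← sum_add_distrib]
      calc _ ≤ ∑ k ∈ (range H).filter (fun k => ¬ I k), 2 := by
            refine sum_le_sum fun k _ => le_trans ?_ (dS k)
            have h1 : ((A.filter fun a => ¬ I a.1).filter fun a => a.1 = k).card ≤
                (A.filter fun a => a.1 = k).card :=
              card_le_card (filter_subset_filter _ (filter_subset _ _))
            have h2 : ((B.filter fun a => ¬ I a.1).filter fun a => a.1 = k).card ≤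
                (B.filter fun a => a.1 = k).card :=
              card_le_card (filter_subset_filter _ (filter_subset _ _))
            omega
        _ = _ := by simp only [sum_const, smul_eq_mul]; omega
    have sA := card_filter_add_card_filter_not (s := A) (fun a => I a.1)
    have sB := card_filter_add_card_filter_not (s := B) (fun a => I a.1)
    omega

end Pool.Agent.KS6_44.PC
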