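import Mathlib
import Pool.Agent.KS6_44.PC.Core

set_option autoImplicit false

open Finset

namespace Pool.Agent.KS6_44.PC

abbrev Pt := ℝ × ℝ

/-- twice the signed area of a triangle -/
def D (a b c : Pt) : ℝ := (b.1 - a.1) * (c.2 - a.2) - (b.2 - a.2) * (c.1 - a.1)

lemma D_col {a b c : Pt} (h : Collinear ℝ {a, b, c}) : D a b c = 0 := by
  obtain ⟨v, hv⟩ := (collinear_iff_of_mem (p₀ := a) (by simp)).1 h
  obtain ⟨r, hr⟩ := hv b (by simp)
  obtain ⟨s, hs⟩ := hv c (by simp)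
  rw [hr, hs]
  simp [D]; ring

lemma cross (a b c d : Pt) (h1 : 0 < D a b c) (h2 : 0 < D b c d) (h3 : 0 < D c d a)
    (h4 : 0 < D d a b) : (segment ℝ a c ∩ segment ℝ b d).Nonempty := by
  have hS : D b c d + D d a b = D c d a + D a b c := by unfold D; ring
  have S0 : D b c d + D d a b ≠ 0 := by linarith
  refine ⟨(D b c d / (D b c d + D d a b)) • a + (D d a b / (D b c d + D d a b)) • c,
    ⟨_, _, by positivity, by positivity, by field_simp, rfl⟩,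
    ⟨D c d a / (D b c d + D d a b), D a b c / (D b c d + D d a b), by positivity, by positivity,
      by rw [← add_div, ← hS]; field_simp, ?_⟩⟩
  ext
  · simp only [Prod.fst_add, Prod.smul_fst, smul_eq_mul]
    field_simp
    unfold D; ring
  · simp only [Prod.snd_add, Prod.smul_snd, smul_eq_mul]
    field_simp
    unfold D; ring

/-- The edges of a noncrossing geometric graph of maximum degree at most two. -/
structure Pl (R : Pt → Pt → Prop) : Prop where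
  symm : ∀ a b, R a b → R b a
  deg : ∀ (a : Pt) (J : Finset Pt), (∀ b ∈ J, R a b) → J.card ≤ 2
  nc : ∀ a b c d, R a b → R c d → s(a, b) ≠ s(c, d) →
    segment ℝ a b ∩ segment ℝ c d ⊆ {a, b} ∩ {c, d}

lemma deg {ι : Type*} {R : Pt → Pt → Prop} (h : Pl R) (a : Pt) (J : Finset ι) (f : ι → Pt)
    (hf : Set.InjOn f J) (hJ : ∀ j ∈ J, R a (f j)) : J.card ≤ 2 := by
  classical
  rw [← card_image_of_injOn hf]
  refine h.deg a _ ?_
  intro z hz
  obtain ⟨j, hj, rfl⟩ := mem_image.1 hz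
  exact hJ j hj

lemma nc {R : Pt → Pt → Prop} (h : Pl R) (a b c d : Pt) (h1 : 0 < D a b c) (h2 : 0 < D b c d)
    (h3 : 0 < D c d a) (h4 : 0 < D d a b) (e1 : R a c) (e2 : R b d) : False := by
  obtain ⟨z, z1, z2⟩ := cross a b c d h1 h2 h3 h4
  have n1 : a ≠ b := by rintro rfl; simp [D] at h1
  have n2 : a ≠ d := by rintro rfl; simp [D] at h4
  have n3 : c ≠ b := by rintro rfl; simp [D] at h2
  have n4 : c ≠ d := by rintro rfl; simp [D] at h3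
  have h5 : s(a, c) ≠ s(b, d) := by
    intro h
    rw [Sym2.eq_iff] at h
    rcases h with h | h
    · exact n1 h.1
    · exact n2 h.1
  obtain ⟨g1, g2⟩ := h.nc a c b d e1 e2 h5 ⟨z1, z2⟩
  rcases g1 with g1 | g1
  · rw [g1] at g2
    rcases g2 with g2 | g2
    · exact n1 g2
    · exact n2 g2
  · rw [g1] at g2
    rcases g2 with g2 | g2
    · exact n3 g2
    · exact n4 g2

/-- the perturbation of the integral points: the vertical lines become parabolas -/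
def φ (ε : ℝ) (p : ℤ × ℤ) : Pt := (p.1 + ε * (p.2 : ℝ) ^ 2, p.2)

lemma φ_inj (ε : ℝ) : Function.Injective (φ ε) := by
  intro p q h
  simp only [φ, Prod.mk.injEq, Int.cast_inj] at h
  obtain ⟨h1, h2⟩ := h
  rw [h2] at h1
  have : p.1 = q.1 := by
    have : (p.1 : ℝ) = q.1 := by linarith
    exact_mod_cast this
  exact Prod.ext this h2

def D0 (a b c : ℤ × ℤ) : ℤ := (b.1 - a.1) * (c.2 - a.2) - (b.2 - a.2) * (c.1 - a.1)

lemma D_φ (ε : ℝ) (a b c : ℤ × ℤ) : D (φ ε a) (φ ε b) (φ ε c) =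
    D0 a b c + ε * (((b.2 - a.2) * (c.2 - a.2) * (b.2 - c.2) : ℤ) : ℝ) := by
  simp only [D, φ, D0]
  push_cast
  ring

/-- `ε` is small compared with the height `Y` -/
def Sm (Y : ℕ) (ε : ℝ) : Prop := 0 < ε ∧ ε * (8 * (Y : ℝ) ^ 3) < 1

lemma exists_sm (Y : ℕ) : ∃ ε, Sm Y ε := by
  refine ⟨1 / (8 * (Y : ℝ) ^ 3 + 1), by positivity, ?_⟩
  rw [one_div, inv_mul_lt_iff₀ (by positivity)]
  linarith

lemma abs_prod {Y : ℕ} {a b c : ℤ} (ha : |a| ≤ Y) (hb : |b| ≤ Y) (hc : |c| ≤ Y) :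
    |(((b - a) * (c - a) * (b - c) : ℤ) : ℝ)| ≤ 8 * (Y : ℝ) ^ 3 := by
  have h1 : |b - a| ≤ 2 * Y := by rw [abs_le] at *; constructor <;> omega
  have h2 : |c - a| ≤ 2 * Y := by rw [abs_le] at *; constructor <;> omega
  have h3 : |b - c| ≤ 2 * Y := by rw [abs_le] at *; constructor <;> omega
  have : |(b - a) * (c - a) * (b - c)| ≤ 8 * (Y : ℤ) ^ 3 := by
    rw [abs_mul, abs_mul]
    calc |b - a| * |c - a| * |b - c| ≤ (2 * Y) * (2 * Y) * (2 * Y) := by gcongr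
      _ = 8 * (Y : ℤ) ^ 3 := by ring
  exact_mod_cast this

lemma D_pos {Y : ℕ} {ε : ℝ} (h : Sm Y ε) {a b c : ℤ × ℤ} (ha : |a.2| ≤ Y) (hb : |b.2| ≤ Y)
    (hc : |c.2| ≤ Y) (h0 : 0 < D0 a b c) : 0 < D (φ ε a) (φ ε b) (φ ε c) := by
  rw [D_φ]
  have h1 := abs_prod ha hb hc
  have h2 : (1 : ℝ) ≤ D0 a b c := by exact_mod_cast h0
  have h3 := (abs_le.1 h1).1
  have h4 : ε * (-(8 * (Y : ℝ) ^ 3)) ≤
      ε * (((b.2 - a.2) * (c.2 - a.2) * (b.2 - c.2) : ℤ) : ℝ) :=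
    mul_le_mul_of_nonneg_left h3 h.1.le
  have h5 := h.2
  linarith

lemma D_ne {Y : ℕ} {ε : ℝ} (h : Sm Y ε) {a b c : ℤ × ℤ} (ha : |a.2| ≤ Y) (hb : |b.2| ≤ Y)
    (hc : |c.2| ≤ Y) (h0 : D0 a b c = 0 → a.2 ≠ b.2 ∧ a.2 ≠ c.2 ∧ b.2 ≠ c.2) :
    D (φ ε a) (φ ε b) (φ ε c) ≠ 0 := by
  by_cases hd : D0 a b c = 0
  · obtain ⟨h1, h2, h3⟩ := h0 hd
    rw [D_φ, hd]
    simp only [Int.cast_zero, zero_add]
    have : ((b.2 - a.2) * (c.2 - a.2) * (b.2 - c.2) : ℤ) ≠ 0 := by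
      refine mul_ne_zero (mul_ne_zero ?_ ?_) ?_ <;> omega
    exact mul_ne_zero h.1.ne' (by exact_mod_cast this)
  · rw [D_φ]
    have h1 := abs_prod ha hb hc
    have h2 : (1 : ℝ) ≤ |(D0 a b c : ℝ)| := by
      have : 1 ≤ |D0 a b c| := Int.one_le_abs hd
      exact_mod_cast this
    intro h3
    have h4 : (D0 a b c : ℝ) = -(ε * (((b.2 - a.2) * (c.2 - a.2) * (b.2 - c.2) : ℤ) : ℝ)) := by
      linarith
    rw [h4, abs_neg, abs_mul, abs_of_pos h.1] at h2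
    have h5 : ε * |(((b.2 - a.2) * (c.2 - a.2) * (b.2 - c.2) : ℤ) : ℝ)| ≤ ε * (8 * (Y : ℝ) ^ 3) :=
      mul_le_mul_of_nonneg_left h1 h.1.le
    have h6 := h.2
    linarith

/-- the left column -/
def lc (i : ℕ) : ℤ × ℤ := (-1, 4 * i)
/-- the right column -/
def rc (j : ℕ) : ℤ × ℤ := (1, 4 * j)
/-- the middle column -/
def mc (M k : ℕ) : ℤ × ℤ := (0, 2 * M + 2 * k - 1)

def Q (M H : ℕ) : Finset (ℤ × ℤ) :=
  (range M).image lc ∪ (range M).image rc ∪ (range H).image (mc M)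

lemma mem_Q {M H : ℕ} {a : ℤ × ℤ} : a ∈ Q M H ↔
    (∃ i < M, a = lc i) ∨ (∃ i < M, a = rc i) ∨ (∃ k < H, a = mc M k) := by
  simp only [Q, mem_union, mem_image, mem_range, eq_comm (a := a), or_assoc]

lemma lc_inj : Function.Injective lc := by
  intro i j h
  simp only [lc, Prod.mk.injEq] at h
  omega

lemma rc_inj : Function.Injective rc := by
  intro i j h
  simp only [rc, Prod.mk.injEq] at h
  omega

lemma mc_inj (M : ℕ) : Function.Injective (mc M) := by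
  intro i j h
  simp only [mc, Prod.mk.injEq] at h
  omega

lemma card_Q (M H : ℕ) : (Q M H).card = 2 * M + H := by
  unfold Q
  rw [card_union_of_disjoint, card_union_of_disjoint, card_image_of_injective _ lc_inj,
    card_image_of_injective _ rc_inj, card_image_of_injective _ (mc_inj M)]
  · simp only [card_range]; omega
  · rw [disjoint_left]
    intro a ha hb
    obtain ⟨i, _, rfl⟩ := mem_image.1 ha
    obtain ⟨j, _, h⟩ := mem_image.1 hb
    simp [lc, rc] at h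
  · rw [disjoint_left]
    intro a ha hb
    obtain ⟨j, _, h⟩ := mem_image.1 hb
    rcases mem_union.1 ha with ha | ha
    · obtain ⟨i, _, rfl⟩ := mem_image.1 ha
      simp [lc, mc] at h
    · obtain ⟨i, _, rfl⟩ := mem_image.1 ha
      simp [rc, mc] at h

lemma Q_bound {M H : ℕ} {a : ℤ × ℤ} (ha : a ∈ Q M H) : |a.2| ≤ ((4 * M + 2 * H + 1 : ℕ) : ℤ) := by
  rcases mem_Q.1 ha with ⟨i, hi, rfl⟩ | ⟨i, hi, rfl⟩ | ⟨i, hi, rfl⟩
  · simp only [lc]; rw [abs_le]; constructor <;> push_cast <;> omega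
  · simp only [rc]; rw [abs_le]; constructor <;> push_cast <;> omega
  · simp only [mc]; rw [abs_le]; constructor <;> push_cast <;> omega

lemma Q_gen {M H : ℕ} {a b c : ℤ × ℤ} (ha : a ∈ Q M H) (hb : b ∈ Q M H) (hc : c ∈ Q M H)
    (h1 : a ≠ b) (h2 : a ≠ c) (h3 : b ≠ c) (h0 : D0 a b c = 0) :
    a.2 ≠ b.2 ∧ a.2 ≠ c.2 ∧ b.2 ≠ c.2 := by
  rcases mem_Q.1 ha with ⟨i, hi, rfl⟩ | ⟨i, hi, rfl⟩ | ⟨i, hi, rfl⟩ <;>
  rcases mem_Q.1 hb with ⟨j, hj, rfl⟩ | ⟨j, hj, rfl⟩ | ⟨j, hj, rfl⟩ <;>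
  rcases mem_Q.1 hc with ⟨k, hk, rfl⟩ | ⟨k, hk, rfl⟩ | ⟨k, hk, rfl⟩ <;>
  simp only [lc, rc, mc, D0, ne_eq, Prod.mk.injEq, true_and] at h0 h1 h2 h3 ⊢ <;>
  omega

end Pool.Agent.KS6_44.PC
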