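import Mathlib
import Pool.Agent.KS6_44.PC.Geo

set_option autoImplicit false

open Finset

namespace Pool.Agent.KS6_44.PC

lemma deg2 {R : Pt → Pt → Prop} (h : Pl R) (a : Pt) (ε : ℝ) (X Y : Finset (ℕ × ℕ))
    (f g : ℕ × ℕ → ℤ × ℤ) (hf : Set.InjOn f X) (hg : Set.InjOn g Y)
    (hd : ∀ x ∈ X, ∀ y ∈ Y, f x ≠ g y) (h1 : ∀ x ∈ X, R a (φ ε (f x)))
    (h2 : ∀ y ∈ Y, R a (φ ε (g y))) : X.card + Y.card ≤ 2 := by
  classical
  have : (X.image f ∪ Y.image g).card ≤ 2 := by
    refine deg h a _ (φ ε) (φ_inj ε).injOn ?_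
    intro j hj
    rcases mem_union.1 hj with hj | hj
    · obtain ⟨x, hx, rfl⟩ := mem_image.1 hj
      exact h1 x hx
    · obtain ⟨x, hx, rfl⟩ := mem_image.1 hj
      exact h2 x hx
  rwa [card_union_of_disjoint, card_image_of_injOn hf, card_image_of_injOn hg] at this
  rw [disjoint_left]
  intro z hz1 hz2
  obtain ⟨x, hx, rfl⟩ := mem_image.1 hz1
  obtain ⟨y, hy, h3⟩ := mem_image.1 hz2
  exact hd x hx y hy h3.symm

open Classical in
/-- edges between the outer columns in the window -/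
noncomputable def CC (M H : ℕ) (ε : ℝ) (R : Pt → Pt → Prop) : Finset (ℕ × ℕ) :=
  (range M ×ˢ range M).filter fun p => M - 1 ≤ p.1 + p.2 ∧ p.1 + p.2 ≤ M - 1 + H ∧
    R (φ ε (lc p.1)) (φ ε (rc p.2))

open Classical in
noncomputable def AA (M H : ℕ) (ε : ℝ) (R : Pt → Pt → Prop) : Finset (ℕ × ℕ) :=
  (range H ×ˢ range M).filter fun p => R (φ ε (mc M p.1)) (φ ε (lc p.2))

open Classical in
noncomputable def BB (M H : ℕ) (ε : ℝ) (R : Pt → Pt → Prop) : Finset (ℕ × ℕ) :=
  (range H ×ˢ range M).filter fun p => R (φ ε (mc M p.1)) (φ ε (rc p.2))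

lemma weight (M H Y : ℕ) (hY : 4 * M + 2 * H + 1 ≤ Y) (ε : ℝ) (hε : Sm Y ε) (R : Pt → Pt → Prop)
    (h : Pl R) :
    2 * (CC M H ε R).card + (AA M H ε R).card + (BB M H ε R).card ≤ 2 * H + 4 := by
  classical
  have mC : ∀ p, p ∈ CC M H ε R ↔ (p.1 < M ∧ p.2 < M) ∧ M - 1 ≤ p.1 + p.2 ∧
      p.1 + p.2 ≤ M - 1 + H ∧ R (φ ε (lc p.1)) (φ ε (rc p.2)) := by
    intro p; simp [CC]
  have mA : ∀ p, p ∈ AA M H ε R ↔ (p.1 < H ∧ p.2 < M) ∧
      R (φ ε (mc M p.1)) (φ ε (lc p.2)) := by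
    intro p; simp [AA]
  have mB : ∀ p, p ∈ BB M H ε R ↔ (p.1 < H ∧ p.2 < M) ∧
      R (φ ε (mc M p.1)) (φ ε (rc p.2)) := by
    intro p; simp [BB]
  have bl : ∀ i < M, |(lc i).2| ≤ (Y : ℤ) := by
    intro i hi; simp only [lc]; rw [abs_le]; constructor <;> omega
  have br : ∀ i < M, |(rc i).2| ≤ (Y : ℤ) := by
    intro i hi; simp only [rc]; rw [abs_le]; constructor <;> omega
  have bm : ∀ k < H, |(mc M k).2| ≤ (Y : ℤ) := by
    intro i hi; simp only [mc]; rw [abs_le]; constructor <;> omega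
  apply core H (M - 1)
  · intro p hp
    rw [mC] at hp
    exact ⟨hp.2.1, hp.2.2.1⟩
  · intro p hp
    rw [mA] at hp
    exact hp.1.1
  · intro p hp
    rw [mB] at hp
    exact hp.1.1
  · intro i
    refine deg2 h (φ ε (lc i)) ε _ _ (fun p => rc p.2) (fun p => mc M p.1) ?_ ?_ ?_ ?_ ?_
    · intro x hx y hy hxy
      simp only [coe_filter, Set.mem_ofPred_eq] at hx hy
      exact Prod.ext (hx.2.trans hy.2.symm) (rc_inj hxy)
    · intro x hx y hy hxy
      simp only [coe_filter, Set.mem_ofPred_eq] at hx hy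
      exact Prod.ext (mc_inj M hxy) (hx.2.trans hy.2.symm)
    · intro x _ y _ hxy
      simp [rc, mc] at hxy
    · intro x hx
      rw [mem_filter, mC] at hx
      rw [← hx.2]
      exact hx.1.2.2.2
    · intro x hx
      rw [mem_filter, mA] at hx
      rw [← hx.2]
      exact h.symm _ _ hx.1.2
  · intro i
    refine deg2 h (φ ε (rc i)) ε _ _ (fun p => lc p.1) (fun p => mc M p.1) ?_ ?_ ?_ ?_ ?_
    · intro x hx y hy hxy
      simp only [coe_filter, Set.mem_ofPred_eq] at hx hy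
      exact Prod.ext (lc_inj hxy) (hx.2.trans hy.2.symm)
    · intro x hx y hy hxy
      simp only [coe_filter, Set.mem_ofPred_eq] at hx hy
      exact Prod.ext (mc_inj M hxy) (hx.2.trans hy.2.symm)
    · intro x _ y _ hxy
      simp [lc, mc] at hxy
    · intro x hx
      rw [mem_filter, mC] at hx
      rw [← hx.2]
      exact h.symm _ _ hx.1.2.2.2
    · intro x hx
      rw [mem_filter, mB] at hx
      rw [← hx.2]
      exact h.symm _ _ hx.1.2
  · intro k
    refine deg2 h (φ ε (mc M k)) ε _ _ (fun p => lc p.2) (fun p => rc p.2) ?_ ?_ ?_ ?_ ?_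
    · intro x hx y hy hxy
      simp only [coe_filter, Set.mem_ofPred_eq] at hx hy
      exact Prod.ext (hx.2.trans hy.2.symm) (lc_inj hxy)
    · intro x hx y hy hxy
      simp only [coe_filter, Set.mem_ofPred_eq] at hx hy
      exact Prod.ext (hx.2.trans hy.2.symm) (rc_inj hxy)
    · intro x _ y _ hxy
      simp [lc, rc] at hxy
    · intro x hx
      rw [mem_filter, mA] at hx
      rw [← hx.2]
      exact hx.1.2
    · intro x hx
      rw [mem_filter, mB] at hx
      rw [← hx.2]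
      exact hx.1.2
  · -- two long edges
    intro p hp q hq hpq
    rw [mC] at hp hq
    by_contra hcon
    push Not at hcon
    refine nc h (φ ε (lc p.1)) (φ ε (rc q.2)) (φ ε (rc p.2)) (φ ε (lc q.1)) ?_ ?_ ?_ ?_
      hp.2.2.2 (h.symm _ _ hq.2.2.2)
    · refine D_pos hε (bl _ hp.1.1) (br _ hq.1.2) (br _ hp.1.2) ?_
      simp only [lc, rc, D0]; omega
    · refine D_pos hε (br _ hq.1.2) (br _ hp.1.2) (bl _ hq.1.1) ?_
      simp only [lc, rc, D0]; omega
    · refine D_pos hε (br _ hp.1.2) (bl _ hq.1.1) (bl _ hp.1.1) ?_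
      simp only [lc, rc, D0]; omega
    · refine D_pos hε (bl _ hq.1.1) (bl _ hp.1.1) (br _ hq.1.2) ?_
      simp only [lc, rc, D0]; omega
  · -- left, above
    intro p hp q hq hpq
    rw [mC] at hp
    rw [mA] at hq
    by_contra hcon
    push Not at hcon
    refine nc h (φ ε (lc q.2)) (φ ε (rc p.2)) (φ ε (mc M q.1)) (φ ε (lc p.1)) ?_ ?_ ?_ ?_
      (h.symm _ _ hq.2) (h.symm _ _ hp.2.2.2)
    · refine D_pos hε (bl _ hq.1.2) (br _ hp.1.2) (bm _ hq.1.1) ?_
      simp only [lc, rc, mc, D0]; omega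
    · refine D_pos hε (br _ hp.1.2) (bm _ hq.1.1) (bl _ hp.1.1) ?_
      simp only [lc, rc, mc, D0]; omega
    · refine D_pos hε (bm _ hq.1.1) (bl _ hp.1.1) (bl _ hq.1.2) ?_
      simp only [lc, rc, mc, D0]; omega
    · refine D_pos hε (bl _ hp.1.1) (bl _ hq.1.2) (br _ hp.1.2) ?_
      simp only [lc, rc, mc, D0]; omega
  · -- left, below
    intro p hp q hq hpq
    rw [mC] at hp
    rw [mA] at hq
    by_contra hcon
    push Not at hcon
    refine nc h (φ ε (lc p.1)) (φ ε (mc M q.1)) (φ ε (rc p.2)) (φ ε (lc q.2)) ?_ ?_ ?_ ?_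
      hp.2.2.2 hq.2
    · refine D_pos hε (bl _ hp.1.1) (bm _ hq.1.1) (br _ hp.1.2) ?_
      simp only [lc, rc, mc, D0]; omega
    · refine D_pos hε (bm _ hq.1.1) (br _ hp.1.2) (bl _ hq.1.2) ?_
      simp only [lc, rc, mc, D0]; omega
    · refine D_pos hε (br _ hp.1.2) (bl _ hq.1.2) (bl _ hp.1.1) ?_
      simp only [lc, rc, mc, D0]; omega
    · refine D_pos hε (bl _ hq.1.2) (bl _ hp.1.1) (bm _ hq.1.1) ?_
      simp only [lc, rc, mc, D0]; omega
  · -- right, above
    intro p hp q hq hpq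
    rw [mC] at hp
    rw [mB] at hq
    by_contra hcon
    push Not at hcon
    refine nc h (φ ε (lc p.1)) (φ ε (rc q.2)) (φ ε (rc p.2)) (φ ε (mc M q.1)) ?_ ?_ ?_ ?_
      hp.2.2.2 (h.symm _ _ hq.2)
    · refine D_pos hε (bl _ hp.1.1) (br _ hq.1.2) (br _ hp.1.2) ?_
      simp only [lc, rc, mc, D0]; omega
    · refine D_pos hε (br _ hq.1.2) (br _ hp.1.2) (bm _ hq.1.1) ?_
      simp only [lc, rc, mc, D0]; omega
    · refine D_pos hε (br _ hp.1.2) (bm _ hq.1.1) (bl _ hp.1.1) ?_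
      simp only [lc, rc, mc, D0]; omega
    · refine D_pos hε (bm _ hq.1.1) (bl _ hp.1.1) (br _ hq.1.2) ?_
      simp only [lc, rc, mc, D0]; omega
  · -- right, below
    intro p hp q hq hpq
    rw [mC] at hp
    rw [mB] at hq
    by_contra hcon
    push Not at hcon
    refine nc h (φ ε (lc p.1)) (φ ε (mc M q.1)) (φ ε (rc p.2)) (φ ε (rc q.2)) ?_ ?_ ?_ ?_
      hp.2.2.2 hq.2
    · refine D_pos hε (bl _ hp.1.1) (bm _ hq.1.1) (br _ hp.1.2) ?_
      simp only [lc, rc, mc, D0]; omega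
    · refine D_pos hε (bm _ hq.1.1) (br _ hp.1.2) (br _ hq.1.2) ?_
      simp only [lc, rc, mc, D0]; omega
    · refine D_pos hε (br _ hp.1.2) (br _ hq.1.2) (bl _ hp.1.1) ?_
      simp only [lc, rc, mc, D0]; omega
    · refine D_pos hε (br _ hq.1.2) (bl _ hp.1.1) (bm _ hq.1.1) ?_
      simp only [lc, rc, mc, D0]; omega

/-- The configuration. -/
lemma conf (M H : ℕ) : ∃ A : Finset Pt, A.card = 2 * M + H ∧
    (∀ a ∈ A, ∀ b ∈ A, ∀ d ∈ A, a ≠ b → a ≠ d → b ≠ d → ¬ Collinear ℝ {a, b, d}) ∧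
    ∀ (m : ℕ) (R : Fin m → Pt → Pt → Prop), (∀ s, Pl (R s)) →
      (∀ a ∈ A, ∀ b ∈ A, a ≠ b → ∃ s, R s a b) →
      2 * ((M - H) * (H + 1)) + 2 * (H * M) ≤ m * (2 * H + 4) := by
  classical
  obtain ⟨ε, hε⟩ := exists_sm (4 * M + 2 * H + 1)
  refine ⟨(Q M H).image (φ ε), ?_, ?_, ?_⟩
  · rw [card_image_of_injective _ (φ_inj ε), card_Q]
  · intro a ha b hb d hd h1 h2 h3 hcol
    obtain ⟨a, ha', rfl⟩ := mem_image.1 ha
    obtain ⟨b, hb', rfl⟩ := mem_image.1 hb
    obtain ⟨d, hd', rfl⟩ := mem_image.1 hd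
    exact D_ne hε (Q_bound ha') (Q_bound hb') (Q_bound hd')
      (Q_gen ha' hb' hd' (fun h => h1 (h ▸ rfl)) (fun h => h2 (h ▸ rfl)) (fun h => h3 (h ▸ rfl)))
      (D_col hcol)
  · intro m R hpl hcov
    have hl : ∀ i < M, φ ε (lc i) ∈ (Q M H).image (φ ε) := fun i hi =>
      mem_image_of_mem _ (mem_Q.2 (Or.inl ⟨i, hi, rfl⟩))
    have hr : ∀ i < M, φ ε (rc i) ∈ (Q M H).image (φ ε) := fun i hi =>
      mem_image_of_mem _ (mem_Q.2 (Or.inr (Or.inl ⟨i, hi, rfl⟩)))
    have hm : ∀ i < H, φ ε (mc M i) ∈ (Q M H).image (φ ε) := fun i hi =>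
      mem_image_of_mem _ (mem_Q.2 (Or.inr (Or.inr ⟨i, hi, rfl⟩)))
    have c1 : (M - H) * (H + 1) ≤ ∑ s : Fin m, (CC M H ε (R s)).card := by
      have e1 : (M - H) * (H + 1) = (Ico H M ×ˢ range (H + 1)).card := by
        rw [card_product, Nat.card_Ico, card_range]
      rw [e1]
      refine le_trans ?_ card_biUnion_le
      refine card_le_card_of_injOn (fun p => (p.1, M - 1 + p.2 - p.1)) ?_ ?_
      · intro p hp
        simp only [coe_product, coe_Ico, coe_range, Set.mem_prod, Set.mem_Ico, Set.mem_Iio] at hp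
        obtain ⟨s, hs⟩ := hcov _ (hl p.1 hp.1.2) _ (hr (M - 1 + p.2 - p.1) (by omega)) (by
          intro h
          have := φ_inj ε h
          simp [lc, rc] at this)
        refine mem_coe.2 (mem_biUnion.2 ⟨s, mem_univ _, ?_⟩)
        simp only [CC, mem_filter, mem_product, mem_range]
        refine ⟨⟨hp.1.2, by omega⟩, by omega, by omega, hs⟩
      · intro p hp q hq hpq
        simp only [coe_product, coe_Ico, coe_range, Set.mem_prod, Set.mem_Ico, Set.mem_Iio]
          at hp hq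
        simp only [Prod.mk.injEq] at hpq
        exact Prod.ext hpq.1 (by omega)
    have c2 : H * M ≤ ∑ s : Fin m, (AA M H ε (R s)).card := by
      have e1 : H * M = (range H ×ˢ range M).card := by
        rw [card_product, card_range, card_range]
      rw [e1]
      refine le_trans (card_le_card ?_) card_biUnion_le
      intro p hp
      have hp' := mem_product.1 hp
      rw [mem_range, mem_range] at hp'
      obtain ⟨s, hs⟩ := hcov _ (hm p.1 hp'.1) _ (hl p.2 hp'.2) (by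
        intro h
        have := φ_inj ε h
        simp [lc, mc] at this)
      exact mem_biUnion.2 ⟨s, mem_univ _, mem_filter.2 ⟨hp, hs⟩⟩
    have c3 : H * M ≤ ∑ s : Fin m, (BB M H ε (R s)).card := by
      have e1 : H * M = (range H ×ˢ range M).card := by
        rw [card_product, card_range, card_range]
      rw [e1]
      refine le_trans (card_le_card ?_) card_biUnion_le
      intro p hp
      have hp' := mem_product.1 hp
      rw [mem_range, mem_range] at hp'
      obtain ⟨s, hs⟩ := hcov _ (hm p.1 hp'.1) _ (hr p.2 hp'.2) (by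
        intro h
        have := φ_inj ε h
        simp [rc, mc] at this)
      exact mem_biUnion.2 ⟨s, mem_univ _, mem_filter.2 ⟨hp, hs⟩⟩
    have c4 := sum_le_sum fun s (_ : s ∈ (univ : Finset (Fin m))) =>
      weight M H _ le_rfl ε hε (R s) (hpl s)
    rw [sum_add_distrib, sum_add_distrib, ← mul_sum] at c4
    simp only [sum_const, card_univ, Fintype.card_fin, smul_eq_mul] at c4
    omega

/-- The numerical part. -/
lemma final (n : ℕ) : ∃ M H : ℕ, n = 2 * M + H ∧ ∀ m : ℕ,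
    2 * ((M - H) * (H + 1)) + 2 * (H * M) ≤ m * (2 * H + 4) → (n : ℝ) - 5 * √n ≤ m := by
  have hs := Nat.sqrt_le' n
  have hs2 := Nat.lt_succ_sqrt' n
  obtain ⟨H, h1, h2, h3⟩ : ∃ H, Nat.sqrt n ≤ H ∧ H ≤ Nat.sqrt n + 1 ∧ ∃ M, n = 2 * M + H := by
    have hle : Nat.sqrt n ≤ n := Nat.sqrt_le_self n
    by_cases hpar : (n - Nat.sqrt n) % 2 = 0
    · exact ⟨Nat.sqrt n, le_rfl, by omega, (n - Nat.sqrt n) / 2, by omega⟩
    · exact ⟨Nat.sqrt n + 1, by omega, le_rfl, (n - Nat.sqrt n - 1) / 2, by omega⟩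
  obtain ⟨M, hM⟩ := h3
  refine ⟨M, H, hM, fun m hm => ?_⟩
  set s : ℝ := √n with hsd
  have s0 : 0 ≤ s := Real.sqrt_nonneg _
  have ss : s * s = n := Real.mul_self_sqrt (Nat.cast_nonneg n)
  have u1 : (Nat.sqrt n : ℝ) ≤ s := by
    rw [hsd]; exact Real.nat_sqrt_le_real_sqrt
  have u2 : s < (Nat.sqrt n : ℝ) + 1 := by
    rw [hsd]; exact Real.real_sqrt_lt_nat_sqrt_succ
  have h1' : (Nat.sqrt n : ℝ) ≤ H := by exact_mod_cast h1
  have h2' : (H : ℝ) ≤ Nat.sqrt n + 1 := by exact_mod_cast h2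
  have g1 : s < H + 1 := by linarith
  have g2 : (H : ℝ) ≤ s + 1 := by linarith
  have hn : (n : ℝ) = 2 * M + H := by exact_mod_cast hM
  have m0 : (0 : ℝ) ≤ m := Nat.cast_nonneg m
  by_cases hn3 : n < 3
  · have : s * s < 3 * s ∨ s = 0 := by
      rcases s0.lt_or_eq with h | h
      · left
        have : (n : ℝ) < 3 := by exact_mod_cast hn3
        have : s < 3 := by nlinarith
        nlinarith
      · right; exact h.symm
    rcases this with h | h
    · nlinarith
    · rw [← ss, h]; linarith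
  · have hn3' : (3 : ℝ) ≤ n := by exact_mod_cast (not_lt.1 hn3)
    have s1 : (1.7 : ℝ) ≤ s := by
      by_contra hc
      push Not at hc
      nlinarith
    by_cases hMH : M < H
    · have : (M : ℝ) ≤ H - 1 := by
        have : M + 1 ≤ H := hMH
        have : (M : ℝ) + 1 ≤ H := by exact_mod_cast this
        linarith
      nlinarith
    · have hm' : 2 * (((M : ℝ) - H) * (H + 1)) + 2 * (H * M) ≤ m * (2 * H + 4) := by
        have : (2 * ((M - H) * (H + 1)) + 2 * (H * M) : ℕ) ≤ m * (2 * H + 4) := hm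
        have h4 : ((2 * ((M - H) * (H + 1)) + 2 * (H * M) : ℕ) : ℝ) ≤
          ((m * (2 * H + 4) : ℕ) : ℝ) := by exact_mod_cast this
        push_cast [Nat.cast_sub (not_lt.1 hMH)] at h4
        exact h4
      have hH2 : (0 : ℝ) < H + 2 := by positivity
      have key : ((n : ℝ) - 5 * s) * (H + 2) ≤ m * (H + 2) := by
        have e1 : (M : ℝ) = (n - H) / 2 := by linarith
        have e2 : 0 ≤ ((H : ℝ) - (s - 1)) * ((s + 1) - H) :=
          mul_nonneg (by linarith) (by linarith)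
        have e3 : 0 ≤ (H : ℝ) * (s - 1.5) := mul_nonneg (Nat.cast_nonneg H) (by linarith)
        have e4 : (n : ℝ) * H + n / 2 - 2 * (H * H) - 3 / 2 * H ≤ m * (H + 2) := by
          have e5 : 2 * (((M : ℝ) - H) * (H + 1)) + 2 * (H * M) =
              2 * (n * H + n / 2 - 2 * (H * H) - 3 / 2 * H) := by
            rw [e1]; ring
          rw [e5] at hm'
          linarith
        have e6 : ((n : ℝ) - 5 * s) * (H + 2) ≤
            (n : ℝ) * H + n / 2 - 2 * (H * H) - 3 / 2 * H := by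
          rw [← ss] at *
          nlinarith [e2, e3, s1]
        linarith
      exact le_of_mul_le_mul_right key hH2

end Pool.Agent.KS6_44.PC
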