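import Mathlib
import Pool.Agent.KS6_44.PC.Main

/-!
# Point sets whose complete geometric graph needs almost `n` noncrossing paths

For every `n` there is a set `A` of `n` points in general position in the plane with
`p(A) ≥ n - 5 √n`: every covering of the complete geometric graph on `A` by noncrossing paths has
at least `n - 5 √n` members. The same bound holds for coverings by noncrossing geometric graphs of
maximum degree at most two (disjoint unions of noncrossing paths and cycles).

The set consists of two far columns of `(n - H) / 2` points each and of a column of `H ≈ √n` points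
in the middle between them, at the heights at which the segments between the two far columns pass;
the columns are slightly bent. In a noncrossing graph of maximum degree two the edges between the
far columns which pass through the middle column compete with the edges which end there.
-/

set_option autoImplicit false

open Finset

namespace Pool.Agent.Results.MP_2ace6b_co.AlmostNPaths

/-- no three points of `A` are collinear -/
def GeneralPosition (A : Finset (ℝ × ℝ)) : Prop :=
  ∀ a ∈ A, ∀ b ∈ A, ∀ c ∈ A, a ≠ b → a ≠ c → b ≠ c → ¬ Collinear ℝ {a, b, c}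

/-- `v 0, …, v (t - 1)` is a path of the complete geometric graph on `A` (distinct points of `A`,
at least two of them), and two different edges of it have at most a common end point in common -/
def IsPlanePath (A : Finset (ℝ × ℝ)) (t : ℕ) (v : ℕ → ℝ × ℝ) : Prop :=
  2 ≤ t ∧ (∀ i < t, v i ∈ A) ∧ (∀ i < t, ∀ j < t, v i = v j → i = j) ∧
    ∀ i j, i + 1 < t → j + 1 < t → i ≠ j →
      segment ℝ (v i) (v (i + 1)) ∩ segment ℝ (v j) (v (j + 1)) ⊆
        {v i, v (i + 1)} ∩ {v j, v (j + 1)}

/-- the path `v 0, …, v (t - 1)` contains the edge `ab` -/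
def Contains (t : ℕ) (v : ℕ → ℝ × ℝ) (a b : ℝ × ℝ) : Prop :=
  ∃ i, i + 1 < t ∧ ((v i = a ∧ v (i + 1) = b) ∨ (v i = b ∧ v (i + 1) = a))

/-- the complete geometric graph on `A` can be covered by `m` noncrossing paths -/
def PathCoverable (A : Finset (ℝ × ℝ)) (m : ℕ) : Prop :=
  ∃ (t : Fin m → ℕ) (v : Fin m → ℕ → ℝ × ℝ), (∀ s, IsPlanePath A (t s) (v s)) ∧
    ∀ a ∈ A, ∀ b ∈ A, a ≠ b → ∃ s, Contains (t s) (v s) a b

/-- `p(A)`: the least number of noncrossing paths which cover the complete geometric graph on `A` -/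
noncomputable def pathCover (A : Finset (ℝ × ℝ)) : ℕ := sInf {m | PathCoverable A m}

/-- a noncrossing geometric graph of maximum degree at most two: two different edges have at most
a common end point in common -/
def IsPlaneDegTwo (G : SimpleGraph (ℝ × ℝ)) : Prop :=
  (∀ a, (G.neighborSet a).encard ≤ 2) ∧
    ∀ a b c d, G.Adj a b → G.Adj c d → s(a, b) ≠ s(c, d) →
      segment ℝ a b ∩ segment ℝ c d ⊆ {a, b} ∩ {c, d}

theorem pl_of_path {A : Finset (ℝ × ℝ)} {t : ℕ} {v : ℕ → ℝ × ℝ} (h : IsPlanePath A t v) :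
    KS6_44.PC.Pl (Contains t v) := by
  classical
  obtain ⟨-, -, hinj, hnc⟩ := h
  refine ⟨?_, ?_, ?_⟩
  · rintro a b ⟨i, h1, h2⟩
    exact ⟨i, h1, h2.symm⟩
  · intro a J hJ
    rcases J.eq_empty_or_nonempty with rfl | ⟨j0, hj0⟩
    · simp
    obtain ⟨i0, hi0, e0⟩ : ∃ i0, i0 < t ∧ v i0 = a := by
      obtain ⟨i, h1, h2 | h2⟩ := hJ j0 hj0
      · exact ⟨i, by omega, h2.1⟩
      · exact ⟨i + 1, h1, h2.2⟩
    refine (card_le_card (t := {v (i0 + 1), v (i0 - 1)}) ?_).trans card_le_two
    intro j hj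
    obtain ⟨i, h1, h2 | h2⟩ := hJ j hj
    · have : i = i0 := hinj i (by omega) i0 hi0 (h2.1.trans e0.symm)
      subst this
      simp [h2.2]
    · have : i + 1 = i0 := hinj _ h1 i0 hi0 (h2.2.trans e0.symm)
      subst this
      simp [h2.1]
  · rintro a b c d ⟨i, hi, ⟨rfl, rfl⟩ | ⟨rfl, rfl⟩⟩ ⟨j, hj, ⟨rfl, rfl⟩ | ⟨rfl, rfl⟩⟩ hne
    · exact hnc i j hi hj (fun h => hne (by rw [h]))
    · rw [segment_symm ℝ (v (j + 1)) (v j), Set.pair_comm (v (j + 1)) (v j)]
      exact hnc i j hi hj (fun h => hne (by rw [h]; exact Sym2.eq_swap))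
    · rw [segment_symm ℝ (v (i + 1)) (v i), Set.pair_comm (v (i + 1)) (v i)]
      exact hnc i j hi hj (fun h => hne (by rw [h]; exact Sym2.eq_swap))
    · rw [segment_symm ℝ (v (i + 1)) (v i), Set.pair_comm (v (i + 1)) (v i),
        segment_symm ℝ (v (j + 1)) (v j), Set.pair_comm (v (j + 1)) (v j)]
      exact hnc i j hi hj (fun h => hne (by rw [h]))

theorem pl_of_graph {G : SimpleGraph (ℝ × ℝ)} (h : IsPlaneDegTwo G) :
    KS6_44.PC.Pl (fun a b => G.Adj a b) := by
  refine ⟨fun a b hab => hab.symm, ?_, h.2⟩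
  intro a J hJ
  have h1 : ((J : Set (ℝ × ℝ))).encard ≤ (G.neighborSet a).encard :=
    Set.encard_le_encard (fun b hb => hJ b hb)
  have h2 := h1.trans (h.1 a)
  rw [Set.encard_coe_eq_coe_finsetCard] at h2
  exact_mod_cast h2

theorem pathCoverable_exists (A : Finset (ℝ × ℝ)) : ∃ m, PathCoverable A m := by
  classical
  refine ⟨A.offDiag.card, fun _ => 2,
    fun s i => if i = 0 then (A.offDiag.equivFin.symm s).1.1 else (A.offDiag.equivFin.symm s).1.2,
    ?_, ?_⟩
  · intro s
    have hs := mem_offDiag.1 (A.offDiag.equivFin.symm s).2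
    refine ⟨le_rfl, ?_, ?_, ?_⟩
    · intro i _
      dsimp only
      split_ifs
      · exact hs.1
      · exact hs.2.1
    · intro i hi j hj hij
      have hi' : i < 2 := hi
      have hj' : j < 2 := hj
      dsimp only at hij
      split_ifs at hij with h1 h2 h2
      · omega
      · exact absurd hij hs.2.2
      · exact absurd hij.symm hs.2.2
      · omega
    · intro i j hi hj hij
      have hi' : i + 1 < 2 := hi
      have hj' : j + 1 < 2 := hj
      omega
  · intro a ha b hb hab
    refine ⟨A.offDiag.equivFin ⟨(a, b), mem_offDiag.2 ⟨ha, hb, hab⟩⟩, 0, Nat.one_lt_two, Or.inl ⟨?_, ?_⟩⟩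
    · simp
    · simp

/-- **Almost `n` noncrossing paths.** -/
theorem result (n : ℕ) : ∃ A : Finset (ℝ × ℝ), A.card = n ∧ GeneralPosition A ∧
    (n : ℝ) - 5 * √n ≤ pathCover A ∧
    ∀ (m : ℕ) (G : Fin m → SimpleGraph (ℝ × ℝ)), (∀ s, IsPlaneDegTwo (G s)) →
      (∀ a ∈ A, ∀ b ∈ A, a ≠ b → ∃ s, (G s).Adj a b) → (n : ℝ) - 5 * √n ≤ m := by
  obtain ⟨M, H, hn, hfin⟩ := KS6_44.PC.final n
  obtain ⟨A, h1, h2, h3⟩ := KS6_44.PC.conf M H
  refine ⟨A, by omega, h2, ?_, ?_⟩
  · obtain ⟨t, v, h4, h5⟩ := Nat.sInf_mem (pathCoverable_exists A)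
    exact hfin _ (h3 _ (fun s => Contains (t s) (v s)) (fun s => pl_of_path (h4 s)) h5)
  · intro m G hG hcov
    exact hfin _ (h3 _ (fun s a b => (G s).Adj a b) (fun s => pl_of_graph (hG s)) hcov)

end Pool.Agent.Results.MP_2ace6b_co.AlmostNPaths
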